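import Mathlib
import Pool.Agent.Run7.h617.Gag.Two

/-!
# Uniform comparison of Gagliardo seminorms of different orders
-/

open MeasureTheory Set
open scoped ENNReal NNReal

namespace Pool.Agent.Results.MP_95ea62_an.UniformComparison

noncomputable section

/-- The homogeneous Gagliardo seminorm
`[f]_{Ẇ^{s,p}(ℝ^N)} = (∫ ∫ |f(x) - f(y)|^p / |x - y|^(N + s p) dy dx) ^ (1/p)`, in `[0, ∞]`. -/
def gagliardo {N : ℕ} (s p : ℝ) (f : EuclideanSpace ℝ (Fin N) → ℂ) : ℝ≥0∞ :=
  (∫⁻ x, ∫⁻ y, ‖f x - f y‖ₑ ^ p / ‖x - y‖ₑ ^ ((N : ℝ) + s * p)) ^ (1 / p)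

/-- **Uniform comparison of the Gagliardo seminorms.** For all `N`, all `1 ≤ p < ∞` and all
`θ > 0` there is a constant `C` such that for all `θ < s ≤ t < 1` and all measurable `f`
`min {s, 1-s}^(1/p) [f]_{s,p} ≤ C (‖f‖_p + min {t, 1-t}^(1/p) [f]_{t,p})`; in particular this holds
for all Schwartz functions. -/
theorem result (N : ℕ) (p : ℝ) (hp : 1 ≤ p) (θ : ℝ) (hθ : 0 < θ) :
    ∃ C : ℝ≥0, 0 < C ∧
      (∀ s t : ℝ, θ < s → s ≤ t → t < 1 →
        ∀ f : EuclideanSpace ℝ (Fin N) → ℂ, Measurable f →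
          ENNReal.ofReal ((min s (1 - s)) ^ (1 / p)) * gagliardo s p f ≤
            C * (eLpNorm f (ENNReal.ofReal p) volume +
              ENNReal.ofReal ((min t (1 - t)) ^ (1 / p)) * gagliardo t p f)) ∧
      ∀ s t : ℝ, θ < s → s < t → t < 1 →
        ∀ f : SchwartzMap (EuclideanSpace ℝ (Fin N)) ℂ,
          ENNReal.ofReal ((min s (1 - s)) ^ (1 / p)) * gagliardo s p f ≤
            C * (eLpNorm f (ENNReal.ofReal p) volume +
              ENNReal.ofReal ((min t (1 - t)) ^ (1 / p)) * gagliardo t p f) := by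
  obtain ⟨K, hK, hfar⟩ := Pool.Agent.Run7.h617.Gag.far (N := N) hp hθ
  set c1 : ℝ≥0∞ := ENNReal.ofReal (2 * p * 2 ^ p / θ) + K + 1 with hc1
  have hc1t : c1 ≠ ⊤ := by simp [hc1, hK]
  have hp0 : 0 < p := by linarith
  have hC : c1 ^ (1 / p) ≠ ⊤ := ENNReal.rpow_ne_top_of_nonneg (by positivity) hc1t
  have hC0 : c1 ^ (1 / p) ≠ 0 := by
    rw [Ne, ENNReal.rpow_eq_zero_iff]
    rintro (⟨h, -⟩ | ⟨h, -⟩)
    · simp [hc1] at h
    · exact hc1t h
  have main : ∀ s t : ℝ, θ < s → s ≤ t → t < 1 →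
        ∀ f : EuclideanSpace ℝ (Fin N) → ℂ, Measurable f →
          ENNReal.ofReal ((min s (1 - s)) ^ (1 / p)) * gagliardo s p f ≤
            (c1 ^ (1 / p)).toNNReal * (eLpNorm f (ENNReal.ofReal p) volume +
              ENNReal.ofReal ((min t (1 - t)) ^ (1 / p)) * gagliardo t p f) := by
    intro s t hs hst ht f hf
    have hs0 : 0 < s := hθ.trans hs
    have ht0 : 0 < t := hs0.trans_le hst
    rw [ENNReal.coe_toNNReal hC]
    have e1 : ∀ r : ℝ, 0 < r → r < 1 →
        ENNReal.ofReal ((min r (1 - r)) ^ (1 / p)) * gagliardo r p f =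
          (ENNReal.ofReal (min r (1 - r)) *
            ∫⁻ h, Pool.Agent.Run7.h617.Gag.D p f h / ‖h‖ₑ ^ ((N : ℝ) + r * p)) ^ (1 / p) := by
      intro r hr hr1
      unfold gagliardo
      rw [Pool.Agent.Run7.h617.Gag.gag_eq hf, ENNReal.mul_rpow_of_nonneg _ _ (by positivity),
        ENNReal.ofReal_rpow_of_nonneg (le_min hr.le (by linarith)) (by positivity)]
    have e2 : eLpNorm f (ENNReal.ofReal p) volume = (∫⁻ x, ‖f x‖ₑ ^ p) ^ (1 / p) := by
      rw [eLpNorm_eq_lintegral_rpow_enorm_toReal (by simpa using hp0) ENNReal.ofReal_ne_top,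
        ENNReal.toReal_ofReal hp0.le]
    rw [e1 s hs0 (by linarith), e1 t ht0 ht, e2]
    set S : ℝ → ℝ≥0∞ := fun r =>
      ∫⁻ h, Pool.Agent.Run7.h617.Gag.D p f h / ‖h‖ₑ ^ ((N : ℝ) + r * p) with hS
    have key : ENNReal.ofReal (min s (1 - s)) * S s ≤
        c1 * ((∫⁻ x, ‖f x‖ₑ ^ p) + ENNReal.ofReal (min t (1 - t)) * S t) := by
      have hm : MeasurableSet {h : EuclideanSpace ℝ (Fin N) | ‖h‖ ≤ 1} :=
        measurableSet_le measurable_norm measurable_const
      have hnear := Pool.Agent.Run7.h617.Gag.near (N := N) (p := p) (a := 1 - s) (b := 1 - t) hp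
        (by linarith) (by linarith) (by linarith) hf
      have x1 : (N : ℝ) + p - p * (1 - s) = (N : ℝ) + s * p := by ring
      have x2 : (N : ℝ) + p - p * (1 - t) = (N : ℝ) + t * p := by ring
      rw [x1, x2] at hnear
      have hsplit : S s = (∫⁻ h in {h : EuclideanSpace ℝ (Fin N) | ‖h‖ ≤ 1},
          Pool.Agent.Run7.h617.Gag.D p f h / ‖h‖ₑ ^ ((N : ℝ) + s * p)) +
          ∫⁻ h in {h : EuclideanSpace ℝ (Fin N) | ‖h‖ ≤ 1}ᶜ,
            Pool.Agent.Run7.h617.Gag.D p f h / ‖h‖ₑ ^ ((N : ℝ) + s * p) :=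
        (lintegral_add_compl _ hm).symm
      have hfar' := hfar s hs f hf
      have ht1 : ENNReal.ofReal (1 - t) ≤ ENNReal.ofReal θ⁻¹ * ENNReal.ofReal (min t (1 - t)) := by
        rw [← ENNReal.ofReal_mul (by positivity)]
        apply ENNReal.ofReal_le_ofReal
        rw [← div_eq_inv_mul, le_div_iff₀ hθ]
        apply le_min
        · nlinarith
        · nlinarith
      calc ENNReal.ofReal (min s (1 - s)) * S s
          ≤ ENNReal.ofReal (1 - s) * S s :=
            mul_le_mul' (ENNReal.ofReal_le_ofReal (min_le_right _ _)) le_rfl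
        _ ≤ ENNReal.ofReal (2 * p * 2 ^ p) * (ENNReal.ofReal (1 - t) * S t) +
              K * ∫⁻ x, ‖f x‖ₑ ^ p := by
            rw [hsplit, mul_add]
            refine add_le_add hnear (le_trans ?_ hfar')
            exact mul_le_of_le_one_left zero_le (by
              rw [← ENNReal.ofReal_one]
              exact ENNReal.ofReal_le_ofReal (by linarith))
        _ ≤ ENNReal.ofReal (2 * p * 2 ^ p) * (ENNReal.ofReal θ⁻¹ *
              ENNReal.ofReal (min t (1 - t)) * S t) + K * ∫⁻ x, ‖f x‖ₑ ^ p :=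
            add_le_add (mul_le_mul' le_rfl (mul_le_mul' ht1 le_rfl)) le_rfl
        _ = ENNReal.ofReal (2 * p * 2 ^ p / θ) * (ENNReal.ofReal (min t (1 - t)) * S t) +
              K * ∫⁻ x, ‖f x‖ₑ ^ p := by
            rw [div_eq_mul_inv, ENNReal.ofReal_mul (by positivity : (0:ℝ) ≤ 2 * p * 2 ^ p)]
            ring
        _ ≤ c1 * (ENNReal.ofReal (min t (1 - t)) * S t) + c1 * ∫⁻ x, ‖f x‖ₑ ^ p := by
            refine add_le_add (mul_le_mul' ?_ le_rfl) (mul_le_mul' ?_ le_rfl)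
            · rw [hc1, add_assoc]; exact le_self_add
            · rw [hc1, add_comm _ K, add_assoc]; exact le_self_add
        _ = _ := by rw [← mul_add, add_comm]
    calc (ENNReal.ofReal (min s (1 - s)) * S s) ^ (1 / p)
        ≤ (c1 * ((∫⁻ x, ‖f x‖ₑ ^ p) + ENNReal.ofReal (min t (1 - t)) * S t)) ^ (1 / p) :=
          ENNReal.rpow_le_rpow key (by positivity)
      _ = c1 ^ (1 / p) * ((∫⁻ x, ‖f x‖ₑ ^ p) + ENNReal.ofReal (min t (1 - t)) * S t) ^ (1 / p) :=
          ENNReal.mul_rpow_of_nonneg _ _ (by positivity)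
      _ ≤ _ := mul_le_mul' le_rfl (ENNReal.rpow_add_le_add_rpow _ _ (by positivity)
          (by rw [div_le_one hp0]; exact hp))
  refine ⟨(c1 ^ (1 / p)).toNNReal, ?_, main, ?_⟩
  · rw [ENNReal.toNNReal_pos_iff]
    exact ⟨pos_iff_ne_zero.2 hC0, lt_top_iff_ne_top.2 hC⟩
  · intro s t hs hst ht f
    exact main s t hs hst.le ht f f.continuous.measurable

end

end Pool.Agent.Results.MP_95ea62_an.UniformComparison
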